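import Pool.Agent.Helper38.ELP.Spec

/-! D5: the crossing core. -/

namespace Pool.Agent.Helper58.ELP

open Pool.Agent.Helper38.ELP

set_option synthInstance.maxSize 100000 in
set_option maxRecDepth 100000 in
theorem core :
  ∀ h61 : Bool,
  ∀ h51 : Bool,
    h61.toNat + h51.toNat = 1 →
  ∀ h62 : Bool,
    h61.toNat + h62.toNat = 1 →
  ∀ v26 : Bool,
  ∀ h35 : Bool,
    h35.toNat + v26.toNat = 1 →
  ∀ h45 : Bool,
    h45.toNat + h35.toNat = 1 →
  ∀ v45 : Bool,
    h45.toNat + v45.toNat = 1 →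
  ∀ v16 : Bool,
    v16.toNat + v26.toNat = 1 →
  ∀ v15 : Bool,
    v16.toNat + v15.toNat = 1 →
  ∀ h14 : Bool,
    v15.toNat + h14.toNat = 1 →
  ∀ v04 : Bool,
    h14.toNat + v04.toNat = 1 →
  ∀ h41 : Bool,
  ∀ v42 : Bool,
    h51.toNat + v42.toNat + h41.toNat = 2 →
  ∀ v43 : Bool,
  ∀ h52 : Bool,
    h52.toNat + v43.toNat + v42.toNat = 2 →
  ∀ v53 : Bool,
    h62.toNat + v53.toNat + h52.toNat = 2 →
  ∀ h53 : Bool,
    h53.toNat + v53.toNat = 1 →
  ∀ h43 : Bool,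
  ∀ v44 : Bool,
    h53.toNat + v44.toNat + h43.toNat + v43.toNat = 2 →
  ∀ h44 : Bool,
    v45.toNat + h44.toNat + v44.toNat = 2 →
  ∀ v34 : Bool,
    h44.toNat + v34.toNat = 1 →
    1 ≤ h35.toNat + h43.toNat + v34.toNat + v43.toNat + v53.toNat →
  ∀ v32 : Bool,
  ∀ v31 : Bool,
    h41.toNat + v32.toNat + v31.toNat = 2 →
  ∀ h30 : Bool,
    v31.toNat + h30.toNat = 1 →
  ∀ v20 : Bool,
    h30.toNat + v20.toNat = 1 →
  ∀ v10 : Bool,
    v10.toNat + v20.toNat = 1 →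
  ∀ h33 : Bool,
  ∀ v33 : Bool,
    h43.toNat + v34.toNat + h33.toNat + v33.toNat = 2 →
  ∀ h32 : Bool,
    v33.toNat + h32.toNat + v32.toNat = 2 →
    1 ≤ h32.toNat + h33.toNat + h35.toNat + h51.toNat + h62.toNat + v31.toNat →
  ∀ h22 : Bool,
    h32.toNat + h22.toNat = 1 →
  ∀ h23 : Bool,
    h33.toNat + h23.toNat = 1 →
    1 ≤ h22.toNat + h23.toNat + h35.toNat + h51.toNat + h62.toNat + v31.toNat →
  ∀ v11 : Bool,
    v11.toNat + v10.toNat = 1 →
  ∀ v03 : Bool,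
  ∀ h13 : Bool,
    h13.toNat + v04.toNat + v03.toNat = 2 →
  ∀ v13 : Bool,
    h23.toNat + h13.toNat + v13.toNat = 2 →
  ∀ h11 : Bool,
  ∀ v12 : Bool,
    v12.toNat + h11.toNat + v11.toNat = 1 →
  ∀ h12 : Bool,
    h22.toNat + v13.toNat + h12.toNat + v12.toNat = 2 →
  ∀ v02 : Bool,
  ∀ h02 : Bool,
    h12.toNat + v03.toNat + h02.toNat + v02.toNat = 2 →
    1 ≤ h02.toNat + h22.toNat + h23.toNat + v02.toNat + v04.toNat + v12.toNat →
    1 ≤ h02.toNat + h32.toNat + h33.toNat + v02.toNat + v04.toNat + v12.toNat →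
  ∀ h01 : Bool,
    h11.toNat + v02.toNat + h01.toNat = 1 →
    h01.toNat + h02.toNat = 1 →
  (h62 = h02 ∧ v26 = v20 ∧ v02 = (v20 && h02)) := by decide +kernel


/-- local facts about the core, in shifted coordinates -/
structure Loc (HL VL : ℕ → ℕ → Bool) : Prop where
  deg : ∀ a < 6, ∀ b < 6, (HL (a + 1) b).toNat + (VL a (b + 1)).toNat + (HL a b).toNat + (VL a b).toNat = 2
  noH : ∀ a < 6, ∀ b < 6, (alH .X).testBit (10 * b + a) = false → HL (a + 1) b = false
  noV : ∀ a < 6, ∀ b < 6, (alV .X).testBit (10 * b + a) = false → VL a (b + 1) = false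
  yesH : ∀ a < 6, ∀ b < 6, (foH .X).testBit (10 * b + a) = true → HL (a + 1) b = true
  yesV : ∀ a < 6, ∀ b < 6, (foV .X).testBit (10 * b + a) = true → VL a (b + 1) = true
  lft : ∀ b < 6, b ≠ 1 → b ≠ 2 → HL 0 b = false
  bot : ∀ a < 6, a ≠ 1 → a ≠ 2 → VL a 0 = false
  cut : ∀ L : Finset (ℕ × ℕ), L.Nonempty → (∀ q ∈ L, (q.1 < 6 ∧ q.2 < 6) ∧ (presM .X).testBit (10 * q.2 + q.1) = true) →
    (0, 0) ∉ L → ∃ q ∈ L,
    ((q.1 + 1, q.2) ∉ L ∧ HL (q.1 + 1) q.2 = true) ∨ ((q.1, q.2 + 1) ∉ L ∧ VL q.1 (q.2 + 1) = true) ∨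
    ((q.1 = 0 ∨ (q.1 - 1, q.2) ∉ L) ∧ HL q.1 q.2 = true) ∨
    ((q.2 = 0 ∨ (q.1, q.2 - 1) ∉ L) ∧ VL q.1 q.2 = true)

theorem tn1 {b : Bool} (h : b = true) : b.toNat = 1 := by rw [h]; rfl
theorem tn0 {b : Bool} (h : b = false) : b.toNat = 0 := by rw [h]; rfl
theorem tf {b : Bool} {P : Prop} (h : b = true) (h' : b.toNat = 0) : P := by
  rw [h] at h'; exact absurd h' (by decide)
theorem pt {a b : Bool} (h : a = !b) : a.toNat + b.toNat = 1 := by revert h; revert a b; decide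

section
variable {HL VL : ℕ → ℕ → Bool} (G : Loc HL VL)
include G

theorem zh00 : (HL 0 0).toNat = 0 := tn0 (G.lft 0 (by norm_num) (by norm_num) (by norm_num))
theorem zh03 : (HL 0 3).toNat = 0 := tn0 (G.lft 3 (by norm_num) (by norm_num) (by norm_num))
theorem zh04 : (HL 0 4).toNat = 0 := tn0 (G.lft 4 (by norm_num) (by norm_num) (by norm_num))
theorem zh05 : (HL 0 5).toNat = 0 := tn0 (G.lft 5 (by norm_num) (by norm_num) (by norm_num))
theorem zh10 : (HL 1 0).toNat = 1 := tn1 (G.yesH 0 (by norm_num) 0 (by norm_num) (by decide +kernel))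
theorem zh15 : (HL 1 5).toNat = 1 := tn1 (G.yesH 0 (by norm_num) 5 (by norm_num) (by decide +kernel))
theorem zh20 : (HL 2 0).toNat = 0 := tn0 (G.noH 1 (by norm_num) 0 (by norm_num) (by decide +kernel))
theorem zh21 : (HL 2 1).toNat = 1 := tn1 (G.yesH 1 (by norm_num) 1 (by norm_num) (by decide +kernel))
theorem zh24 : (HL 2 4).toNat = 1 := tn1 (G.yesH 1 (by norm_num) 4 (by norm_num) (by decide +kernel))
theorem zh25 : (HL 2 5).toNat = 0 := tn0 (G.noH 1 (by norm_num) 5 (by norm_num) (by decide +kernel))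
theorem zh31 : (HL 3 1).toNat = 0 := tn0 (G.noH 2 (by norm_num) 1 (by norm_num) (by decide +kernel))
theorem zh34 : (HL 3 4).toNat = 0 := tn0 (G.noH 2 (by norm_num) 4 (by norm_num) (by decide +kernel))
theorem zh40 : (HL 4 0).toNat = 1 := tn1 (G.yesH 3 (by norm_num) 0 (by norm_num) (by decide +kernel))
theorem zh42 : (HL 4 2).toNat = 0 := tn0 (G.noH 3 (by norm_num) 2 (by norm_num) (by decide +kernel))
theorem zh50 : (HL 5 0).toNat = 1 := tn1 (G.yesH 4 (by norm_num) 0 (by norm_num) (by decide +kernel))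
theorem zh54 : (HL 5 4).toNat = 0 := tn0 (G.noH 4 (by norm_num) 4 (by norm_num) (by decide +kernel))
theorem zh55 : (HL 5 5).toNat = 1 := tn1 (G.yesH 4 (by norm_num) 5 (by norm_num) (by decide +kernel))
theorem zh60 : (HL 6 0).toNat = 0 := tn0 (G.noH 5 (by norm_num) 0 (by norm_num) (by decide +kernel))
theorem zh63 : (HL 6 3).toNat = 0 := tn0 (G.noH 5 (by norm_num) 3 (by norm_num) (by decide +kernel))
theorem zh64 : (HL 6 4).toNat = 0 := tn0 (G.noH 5 (by norm_num) 4 (by norm_num) (by decide +kernel))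
theorem zh65 : (HL 6 5).toNat = 0 := tn0 (G.noH 5 (by norm_num) 5 (by norm_num) (by decide +kernel))
theorem zv00 : (VL 0 0).toNat = 0 := tn0 (G.bot 0 (by norm_num) (by norm_num) (by norm_num))
theorem zv01 : (VL 0 1).toNat = 1 := tn1 (G.yesV 0 (by norm_num) 0 (by norm_num) (by decide +kernel))
theorem zv05 : (VL 0 5).toNat = 1 := tn1 (G.yesV 0 (by norm_num) 4 (by norm_num) (by decide +kernel))
theorem zv06 : (VL 0 6).toNat = 0 := tn0 (G.noV 0 (by norm_num) 5 (by norm_num) (by decide +kernel))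
theorem zv14 : (VL 1 4).toNat = 0 := tn0 (G.noV 1 (by norm_num) 3 (by norm_num) (by decide +kernel))
theorem zv21 : (VL 2 1).toNat = 1 := tn1 (G.yesV 2 (by norm_num) 0 (by norm_num) (by decide +kernel))
theorem zv22 : (VL 2 2).toNat = 0 := tn0 (G.noV 2 (by norm_num) 1 (by norm_num) (by decide +kernel))
theorem zv23 : (VL 2 3).toNat = 1 := tn1 (G.yesV 2 (by norm_num) 2 (by norm_num) (by decide +kernel))
theorem zv24 : (VL 2 4).toNat = 0 := tn0 (G.noV 2 (by norm_num) 3 (by norm_num) (by decide +kernel))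
theorem zv25 : (VL 2 5).toNat = 1 := tn1 (G.yesV 2 (by norm_num) 4 (by norm_num) (by decide +kernel))
theorem zv30 : (VL 3 0).toNat = 0 := tn0 (G.bot 3 (by norm_num) (by norm_num) (by norm_num))
theorem zv35 : (VL 3 5).toNat = 1 := tn1 (G.yesV 3 (by norm_num) 4 (by norm_num) (by decide +kernel))
theorem zv36 : (VL 3 6).toNat = 0 := tn0 (G.noV 3 (by norm_num) 5 (by norm_num) (by decide +kernel))
theorem zv40 : (VL 4 0).toNat = 0 := tn0 (G.bot 4 (by norm_num) (by norm_num) (by norm_num))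
theorem zv41 : (VL 4 1).toNat = 0 := tn0 (G.noV 4 (by norm_num) 0 (by norm_num) (by decide +kernel))
theorem zv46 : (VL 4 6).toNat = 0 := tn0 (G.noV 4 (by norm_num) 5 (by norm_num) (by decide +kernel))
theorem zv50 : (VL 5 0).toNat = 0 := tn0 (G.bot 5 (by norm_num) (by norm_num) (by norm_num))
theorem zv51 : (VL 5 1).toNat = 1 := tn1 (G.yesV 5 (by norm_num) 0 (by norm_num) (by decide +kernel))
theorem zv52 : (VL 5 2).toNat = 0 := tn0 (G.noV 5 (by norm_num) 1 (by norm_num) (by decide +kernel))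
theorem zv54 : (VL 5 4).toNat = 1 := tn1 (G.yesV 5 (by norm_num) 3 (by norm_num) (by decide +kernel))
theorem zv55 : (VL 5 5).toNat = 1 := tn1 (G.yesV 5 (by norm_num) 4 (by norm_num) (by decide +kernel))
theorem zv56 : (VL 5 6).toNat = 0 := tn0 (G.noV 5 (by norm_num) 5 (by norm_num) (by decide +kernel))
theorem c_5_1 : (HL 6 1).toNat + (HL 5 1).toNat = 1 := by
  have h : (HL 6 1).toNat + (VL 5 2).toNat + (HL 5 1).toNat + (VL 5 1).toNat = 2 :=
    G.deg 5 (by norm_num) 1 (by norm_num)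
  have := zv52 G
  have := zv51 G
  omega
theorem c_2_5 : (HL 3 5).toNat + (VL 2 6).toNat = 1 := by
  have h : (HL 3 5).toNat + (VL 2 6).toNat + (HL 2 5).toNat + (VL 2 5).toNat = 2 :=
    G.deg 2 (by norm_num) 5 (by norm_num)
  have := zh25 G
  have := zv25 G
  omega
theorem c_3_5 : (HL 4 5).toNat + (HL 3 5).toNat = 1 := by
  have h : (HL 4 5).toNat + (VL 3 6).toNat + (HL 3 5).toNat + (VL 3 5).toNat = 2 :=
    G.deg 3 (by norm_num) 5 (by norm_num)
  have := zv36 G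
  have := zv35 G
  omega
theorem c_4_5 : (HL 4 5).toNat + (VL 4 5).toNat = 1 := by
  have h : (HL 5 5).toNat + (VL 4 6).toNat + (HL 4 5).toNat + (VL 4 5).toNat = 2 :=
    G.deg 4 (by norm_num) 5 (by norm_num)
  have := zh55 G
  have := zv46 G
  omega
theorem c_1_5 : (VL 1 6).toNat + (VL 1 5).toNat = 1 := by
  have h : (HL 2 5).toNat + (VL 1 6).toNat + (HL 1 5).toNat + (VL 1 5).toNat = 2 :=
    G.deg 1 (by norm_num) 5 (by norm_num)
  have := zh25 G
  have := zh15 G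
  omega
theorem c_1_4 : (VL 1 5).toNat + (HL 1 4).toNat = 1 := by
  have h : (HL 2 4).toNat + (VL 1 5).toNat + (HL 1 4).toNat + (VL 1 4).toNat = 2 :=
    G.deg 1 (by norm_num) 4 (by norm_num)
  have := zh24 G
  have := zv14 G
  omega
theorem c_0_4 : (HL 1 4).toNat + (VL 0 4).toNat = 1 := by
  have h : (HL 1 4).toNat + (VL 0 5).toNat + (HL 0 4).toNat + (VL 0 4).toNat = 2 :=
    G.deg 0 (by norm_num) 4 (by norm_num)
  have := zv05 G
  have := zh04 G
  omega
theorem c_4_1 : (HL 5 1).toNat + (VL 4 2).toNat + (HL 4 1).toNat = 2 := by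
  have h : (HL 5 1).toNat + (VL 4 2).toNat + (HL 4 1).toNat + (VL 4 1).toNat = 2 :=
    G.deg 4 (by norm_num) 1 (by norm_num)
  have := zv41 G
  omega
theorem c_4_2 : (HL 5 2).toNat + (VL 4 3).toNat + (VL 4 2).toNat = 2 := by
  have h : (HL 5 2).toNat + (VL 4 3).toNat + (HL 4 2).toNat + (VL 4 2).toNat = 2 :=
    G.deg 4 (by norm_num) 2 (by norm_num)
  have := zh42 G
  omega
theorem c_5_2 : (HL 6 2).toNat + (VL 5 3).toNat + (HL 5 2).toNat = 2 := by
  have h : (HL 6 2).toNat + (VL 5 3).toNat + (HL 5 2).toNat + (VL 5 2).toNat = 2 :=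
    G.deg 5 (by norm_num) 2 (by norm_num)
  have := zv52 G
  omega
theorem c_5_3 : (HL 5 3).toNat + (VL 5 3).toNat = 1 := by
  have h : (HL 6 3).toNat + (VL 5 4).toNat + (HL 5 3).toNat + (VL 5 3).toNat = 2 :=
    G.deg 5 (by norm_num) 3 (by norm_num)
  have := zh63 G
  have := zv54 G
  omega
theorem c_4_3 : (HL 5 3).toNat + (VL 4 4).toNat + (HL 4 3).toNat + (VL 4 3).toNat = 2 := by
  have h : (HL 5 3).toNat + (VL 4 4).toNat + (HL 4 3).toNat + (VL 4 3).toNat = 2 :=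
    G.deg 4 (by norm_num) 3 (by norm_num)
  omega
theorem c_4_4 : (VL 4 5).toNat + (HL 4 4).toNat + (VL 4 4).toNat = 2 := by
  have h : (HL 5 4).toNat + (VL 4 5).toNat + (HL 4 4).toNat + (VL 4 4).toNat = 2 :=
    G.deg 4 (by norm_num) 4 (by norm_num)
  have := zh54 G
  omega
theorem c_3_4 : (HL 4 4).toNat + (VL 3 4).toNat = 1 := by
  have h : (HL 4 4).toNat + (VL 3 5).toNat + (HL 3 4).toNat + (VL 3 4).toNat = 2 :=
    G.deg 3 (by norm_num) 4 (by norm_num)
  have := zv35 G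
  have := zh34 G
  omega
theorem k_4 : 1 ≤ (HL 3 5).toNat + (HL 4 3).toNat + (VL 3 4).toNat + (VL 4 3).toNat + (VL 5 3).toNat := by
  obtain ⟨q, hq, h⟩ := G.cut {(3, 4), (3, 5), (4, 3), (4, 4), (4, 5), (5, 3), (5, 4), (5, 5)} (by decide)
    (by decide +kernel) (by decide)
  simp only [Finset.mem_insert, Finset.mem_singleton] at hq
  rcases hq with rfl | rfl | rfl | rfl | rfl | rfl | rfl | rfl
  · rcases h with ⟨h1, h2⟩ | ⟨h1, h2⟩ | ⟨h1, h2⟩ | ⟨h1, h2⟩
    · exact absurd h1 (by decide)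
    · exact absurd h1 (by decide)
    · exact tf h2 (zh34 G)
    · have h3 : (VL 3 4).toNat = 1 := tn1 h2
      omega
  · rcases h with ⟨h1, h2⟩ | ⟨h1, h2⟩ | ⟨h1, h2⟩ | ⟨h1, h2⟩
    · exact absurd h1 (by decide)
    · exact tf h2 (zv36 G)
    · have h3 : (HL 3 5).toNat = 1 := tn1 h2
      omega
    · exact absurd h1 (by decide)
  · rcases h with ⟨h1, h2⟩ | ⟨h1, h2⟩ | ⟨h1, h2⟩ | ⟨h1, h2⟩
    · exact absurd h1 (by decide)
    · exact absurd h1 (by decide)
    · have h3 : (HL 4 3).toNat = 1 := tn1 h2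
      omega
    · have h3 : (VL 4 3).toNat = 1 := tn1 h2
      omega
  · rcases h with ⟨h1, h2⟩ | ⟨h1, h2⟩ | ⟨h1, h2⟩ | ⟨h1, h2⟩
    · exact absurd h1 (by decide)
    · exact absurd h1 (by decide)
    · exact absurd h1 (by decide)
    · exact absurd h1 (by decide)
  · rcases h with ⟨h1, h2⟩ | ⟨h1, h2⟩ | ⟨h1, h2⟩ | ⟨h1, h2⟩
    · exact absurd h1 (by decide)
    · exact tf h2 (zv46 G)
    · exact absurd h1 (by decide)
    · exact absurd h1 (by decide)
  · rcases h with ⟨h1, h2⟩ | ⟨h1, h2⟩ | ⟨h1, h2⟩ | ⟨h1, h2⟩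
    · exact tf h2 (zh63 G)
    · exact absurd h1 (by decide)
    · exact absurd h1 (by decide)
    · have h3 : (VL 5 3).toNat = 1 := tn1 h2
      omega
  · rcases h with ⟨h1, h2⟩ | ⟨h1, h2⟩ | ⟨h1, h2⟩ | ⟨h1, h2⟩
    · exact tf h2 (zh64 G)
    · exact absurd h1 (by decide)
    · exact absurd h1 (by decide)
    · exact absurd h1 (by decide)
  · rcases h with ⟨h1, h2⟩ | ⟨h1, h2⟩ | ⟨h1, h2⟩ | ⟨h1, h2⟩
    · exact tf h2 (zh65 G)
    · exact tf h2 (zv56 G)
    · exact absurd h1 (by decide)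
    · exact absurd h1 (by decide)
theorem c_3_1 : (HL 4 1).toNat + (VL 3 2).toNat + (VL 3 1).toNat = 2 := by
  have h : (HL 4 1).toNat + (VL 3 2).toNat + (HL 3 1).toNat + (VL 3 1).toNat = 2 :=
    G.deg 3 (by norm_num) 1 (by norm_num)
  have := zh31 G
  omega
theorem c_3_0 : (VL 3 1).toNat + (HL 3 0).toNat = 1 := by
  have h : (HL 4 0).toNat + (VL 3 1).toNat + (HL 3 0).toNat + (VL 3 0).toNat = 2 :=
    G.deg 3 (by norm_num) 0 (by norm_num)
  have := zh40 G
  have := zv30 G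
  omega
theorem c_2_0 : (HL 3 0).toNat + (VL 2 0).toNat = 1 := by
  have h : (HL 3 0).toNat + (VL 2 1).toNat + (HL 2 0).toNat + (VL 2 0).toNat = 2 :=
    G.deg 2 (by norm_num) 0 (by norm_num)
  have := zv21 G
  have := zh20 G
  omega
theorem c_3_3 : (HL 4 3).toNat + (VL 3 4).toNat + (HL 3 3).toNat + (VL 3 3).toNat = 2 := by
  have h : (HL 4 3).toNat + (VL 3 4).toNat + (HL 3 3).toNat + (VL 3 3).toNat = 2 :=
    G.deg 3 (by norm_num) 3 (by norm_num)
  omega
theorem c_3_2 : (VL 3 3).toNat + (HL 3 2).toNat + (VL 3 2).toNat = 2 := by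
  have h : (HL 4 2).toNat + (VL 3 3).toNat + (HL 3 2).toNat + (VL 3 2).toNat = 2 :=
    G.deg 3 (by norm_num) 2 (by norm_num)
  have := zh42 G
  omega
theorem k_3 : 1 ≤ (HL 3 2).toNat + (HL 3 3).toNat + (HL 3 5).toNat + (HL 5 1).toNat + (HL 6 2).toNat + (VL 3 1).toNat := by
  obtain ⟨q, hq, h⟩ := G.cut {(3, 1), (3, 2), (3, 3), (3, 4), (3, 5), (4, 1), (4, 2), (4, 3), (4, 4), (4, 5), (5, 2), (5, 3), (5, 4), (5, 5)} (by decide)
    (by decide +kernel) (by decide)
  simp only [Finset.mem_insert, Finset.mem_singleton] at hq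
  rcases hq with rfl | rfl | rfl | rfl | rfl | rfl | rfl | rfl | rfl | rfl | rfl | rfl | rfl | rfl
  · rcases h with ⟨h1, h2⟩ | ⟨h1, h2⟩ | ⟨h1, h2⟩ | ⟨h1, h2⟩
    · exact absurd h1 (by decide)
    · exact absurd h1 (by decide)
    · exact tf h2 (zh31 G)
    · have h3 : (VL 3 1).toNat = 1 := tn1 h2
      omega
  · rcases h with ⟨h1, h2⟩ | ⟨h1, h2⟩ | ⟨h1, h2⟩ | ⟨h1, h2⟩
    · exact absurd h1 (by decide)
    · exact absurd h1 (by decide)
    · have h3 : (HL 3 2).toNat = 1 := tn1 h2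
      omega
    · exact absurd h1 (by decide)
  · rcases h with ⟨h1, h2⟩ | ⟨h1, h2⟩ | ⟨h1, h2⟩ | ⟨h1, h2⟩
    · exact absurd h1 (by decide)
    · exact absurd h1 (by decide)
    · have h3 : (HL 3 3).toNat = 1 := tn1 h2
      omega
    · exact absurd h1 (by decide)
  · rcases h with ⟨h1, h2⟩ | ⟨h1, h2⟩ | ⟨h1, h2⟩ | ⟨h1, h2⟩
    · exact absurd h1 (by decide)
    · exact absurd h1 (by decide)
    · exact tf h2 (zh34 G)
    · exact absurd h1 (by decide)
  · rcases h with ⟨h1, h2⟩ | ⟨h1, h2⟩ | ⟨h1, h2⟩ | ⟨h1, h2⟩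
    · exact absurd h1 (by decide)
    · exact tf h2 (zv36 G)
    · have h3 : (HL 3 5).toNat = 1 := tn1 h2
      omega
    · exact absurd h1 (by decide)
  · rcases h with ⟨h1, h2⟩ | ⟨h1, h2⟩ | ⟨h1, h2⟩ | ⟨h1, h2⟩
    · have h3 : (HL 5 1).toNat = 1 := tn1 h2
      omega
    · exact absurd h1 (by decide)
    · exact absurd h1 (by decide)
    · exact tf h2 (zv41 G)
  · rcases h with ⟨h1, h2⟩ | ⟨h1, h2⟩ | ⟨h1, h2⟩ | ⟨h1, h2⟩
    · exact absurd h1 (by decide)
    · exact absurd h1 (by decide)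
    · exact absurd h1 (by decide)
    · exact absurd h1 (by decide)
  · rcases h with ⟨h1, h2⟩ | ⟨h1, h2⟩ | ⟨h1, h2⟩ | ⟨h1, h2⟩
    · exact absurd h1 (by decide)
    · exact absurd h1 (by decide)
    · exact absurd h1 (by decide)
    · exact absurd h1 (by decide)
  · rcases h with ⟨h1, h2⟩ | ⟨h1, h2⟩ | ⟨h1, h2⟩ | ⟨h1, h2⟩
    · exact absurd h1 (by decide)
    · exact absurd h1 (by decide)
    · exact absurd h1 (by decide)
    · exact absurd h1 (by decide)
  · rcases h with ⟨h1, h2⟩ | ⟨h1, h2⟩ | ⟨h1, h2⟩ | ⟨h1, h2⟩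
    · exact absurd h1 (by decide)
    · exact tf h2 (zv46 G)
    · exact absurd h1 (by decide)
    · exact absurd h1 (by decide)
  · rcases h with ⟨h1, h2⟩ | ⟨h1, h2⟩ | ⟨h1, h2⟩ | ⟨h1, h2⟩
    · have h3 : (HL 6 2).toNat = 1 := tn1 h2
      omega
    · exact absurd h1 (by decide)
    · exact absurd h1 (by decide)
    · exact tf h2 (zv52 G)
  · rcases h with ⟨h1, h2⟩ | ⟨h1, h2⟩ | ⟨h1, h2⟩ | ⟨h1, h2⟩
    · exact tf h2 (zh63 G)
    · exact absurd h1 (by decide)
    · exact absurd h1 (by decide)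
    · exact absurd h1 (by decide)
  · rcases h with ⟨h1, h2⟩ | ⟨h1, h2⟩ | ⟨h1, h2⟩ | ⟨h1, h2⟩
    · exact tf h2 (zh64 G)
    · exact absurd h1 (by decide)
    · exact absurd h1 (by decide)
    · exact absurd h1 (by decide)
  · rcases h with ⟨h1, h2⟩ | ⟨h1, h2⟩ | ⟨h1, h2⟩ | ⟨h1, h2⟩
    · exact tf h2 (zh65 G)
    · exact tf h2 (zv56 G)
    · exact absurd h1 (by decide)
    · exact absurd h1 (by decide)
theorem c_2_2 : (HL 3 2).toNat + (HL 2 2).toNat = 1 := by
  have h : (HL 3 2).toNat + (VL 2 3).toNat + (HL 2 2).toNat + (VL 2 2).toNat = 2 :=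
    G.deg 2 (by norm_num) 2 (by norm_num)
  have := zv23 G
  have := zv22 G
  omega
theorem c_2_3 : (HL 3 3).toNat + (HL 2 3).toNat = 1 := by
  have h : (HL 3 3).toNat + (VL 2 4).toNat + (HL 2 3).toNat + (VL 2 3).toNat = 2 :=
    G.deg 2 (by norm_num) 3 (by norm_num)
  have := zv24 G
  have := zv23 G
  omega
theorem k_2 : 1 ≤ (HL 2 2).toNat + (HL 2 3).toNat + (HL 3 5).toNat + (HL 5 1).toNat + (HL 6 2).toNat + (VL 3 1).toNat := by
  obtain ⟨q, hq, h⟩ := G.cut {(2, 2), (2, 3), (3, 1), (3, 2), (3, 3), (3, 4), (3, 5), (4, 1), (4, 2), (4, 3), (4, 4), (4, 5), (5, 2), (5, 3), (5, 4), (5, 5)} (by decide)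
    (by decide +kernel) (by decide)
  simp only [Finset.mem_insert, Finset.mem_singleton] at hq
  rcases hq with rfl | rfl | rfl | rfl | rfl | rfl | rfl | rfl | rfl | rfl | rfl | rfl | rfl | rfl | rfl | rfl
  · rcases h with ⟨h1, h2⟩ | ⟨h1, h2⟩ | ⟨h1, h2⟩ | ⟨h1, h2⟩
    · exact absurd h1 (by decide)
    · exact absurd h1 (by decide)
    · have h3 : (HL 2 2).toNat = 1 := tn1 h2
      omega
    · exact tf h2 (zv22 G)
  · rcases h with ⟨h1, h2⟩ | ⟨h1, h2⟩ | ⟨h1, h2⟩ | ⟨h1, h2⟩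
    · exact absurd h1 (by decide)
    · exact tf h2 (zv24 G)
    · have h3 : (HL 2 3).toNat = 1 := tn1 h2
      omega
    · exact absurd h1 (by decide)
  · rcases h with ⟨h1, h2⟩ | ⟨h1, h2⟩ | ⟨h1, h2⟩ | ⟨h1, h2⟩
    · exact absurd h1 (by decide)
    · exact absurd h1 (by decide)
    · exact tf h2 (zh31 G)
    · have h3 : (VL 3 1).toNat = 1 := tn1 h2
      omega
  · rcases h with ⟨h1, h2⟩ | ⟨h1, h2⟩ | ⟨h1, h2⟩ | ⟨h1, h2⟩
    · exact absurd h1 (by decide)
    · exact absurd h1 (by decide)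
    · exact absurd h1 (by decide)
    · exact absurd h1 (by decide)
  · rcases h with ⟨h1, h2⟩ | ⟨h1, h2⟩ | ⟨h1, h2⟩ | ⟨h1, h2⟩
    · exact absurd h1 (by decide)
    · exact absurd h1 (by decide)
    · exact absurd h1 (by decide)
    · exact absurd h1 (by decide)
  · rcases h with ⟨h1, h2⟩ | ⟨h1, h2⟩ | ⟨h1, h2⟩ | ⟨h1, h2⟩
    · exact absurd h1 (by decide)
    · exact absurd h1 (by decide)
    · exact tf h2 (zh34 G)
    · exact absurd h1 (by decide)
  · rcases h with ⟨h1, h2⟩ | ⟨h1, h2⟩ | ⟨h1, h2⟩ | ⟨h1, h2⟩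
    · exact absurd h1 (by decide)
    · exact tf h2 (zv36 G)
    · have h3 : (HL 3 5).toNat = 1 := tn1 h2
      omega
    · exact absurd h1 (by decide)
  · rcases h with ⟨h1, h2⟩ | ⟨h1, h2⟩ | ⟨h1, h2⟩ | ⟨h1, h2⟩
    · have h3 : (HL 5 1).toNat = 1 := tn1 h2
      omega
    · exact absurd h1 (by decide)
    · exact absurd h1 (by decide)
    · exact tf h2 (zv41 G)
  · rcases h with ⟨h1, h2⟩ | ⟨h1, h2⟩ | ⟨h1, h2⟩ | ⟨h1, h2⟩
    · exact absurd h1 (by decide)
    · exact absurd h1 (by decide)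
    · exact absurd h1 (by decide)
    · exact absurd h1 (by decide)
  · rcases h with ⟨h1, h2⟩ | ⟨h1, h2⟩ | ⟨h1, h2⟩ | ⟨h1, h2⟩
    · exact absurd h1 (by decide)
    · exact absurd h1 (by decide)
    · exact absurd h1 (by decide)
    · exact absurd h1 (by decide)
  · rcases h with ⟨h1, h2⟩ | ⟨h1, h2⟩ | ⟨h1, h2⟩ | ⟨h1, h2⟩
    · exact absurd h1 (by decide)
    · exact absurd h1 (by decide)
    · exact absurd h1 (by decide)
    · exact absurd h1 (by decide)
  · rcases h with ⟨h1, h2⟩ | ⟨h1, h2⟩ | ⟨h1, h2⟩ | ⟨h1, h2⟩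
    · exact absurd h1 (by decide)
    · exact tf h2 (zv46 G)
    · exact absurd h1 (by decide)
    · exact absurd h1 (by decide)
  · rcases h with ⟨h1, h2⟩ | ⟨h1, h2⟩ | ⟨h1, h2⟩ | ⟨h1, h2⟩
    · have h3 : (HL 6 2).toNat = 1 := tn1 h2
      omega
    · exact absurd h1 (by decide)
    · exact absurd h1 (by decide)
    · exact tf h2 (zv52 G)
  · rcases h with ⟨h1, h2⟩ | ⟨h1, h2⟩ | ⟨h1, h2⟩ | ⟨h1, h2⟩
    · exact tf h2 (zh63 G)
    · exact absurd h1 (by decide)
    · exact absurd h1 (by decide)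
    · exact absurd h1 (by decide)
  · rcases h with ⟨h1, h2⟩ | ⟨h1, h2⟩ | ⟨h1, h2⟩ | ⟨h1, h2⟩
    · exact tf h2 (zh64 G)
    · exact absurd h1 (by decide)
    · exact absurd h1 (by decide)
    · exact absurd h1 (by decide)
  · rcases h with ⟨h1, h2⟩ | ⟨h1, h2⟩ | ⟨h1, h2⟩ | ⟨h1, h2⟩
    · exact tf h2 (zh65 G)
    · exact tf h2 (zv56 G)
    · exact absurd h1 (by decide)
    · exact absurd h1 (by decide)
theorem c_1_0 : (VL 1 1).toNat + (VL 1 0).toNat = 1 := by
  have h : (HL 2 0).toNat + (VL 1 1).toNat + (HL 1 0).toNat + (VL 1 0).toNat = 2 :=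
    G.deg 1 (by norm_num) 0 (by norm_num)
  have := zh20 G
  have := zh10 G
  omega
theorem c_0_3 : (HL 1 3).toNat + (VL 0 4).toNat + (VL 0 3).toNat = 2 := by
  have h : (HL 1 3).toNat + (VL 0 4).toNat + (HL 0 3).toNat + (VL 0 3).toNat = 2 :=
    G.deg 0 (by norm_num) 3 (by norm_num)
  have := zh03 G
  omega
theorem c_1_3 : (HL 2 3).toNat + (HL 1 3).toNat + (VL 1 3).toNat = 2 := by
  have h : (HL 2 3).toNat + (VL 1 4).toNat + (HL 1 3).toNat + (VL 1 3).toNat = 2 :=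
    G.deg 1 (by norm_num) 3 (by norm_num)
  have := zv14 G
  omega
theorem c_1_1 : (VL 1 2).toNat + (HL 1 1).toNat + (VL 1 1).toNat = 1 := by
  have h : (HL 2 1).toNat + (VL 1 2).toNat + (HL 1 1).toNat + (VL 1 1).toNat = 2 :=
    G.deg 1 (by norm_num) 1 (by norm_num)
  have := zh21 G
  omega
theorem c_1_2 : (HL 2 2).toNat + (VL 1 3).toNat + (HL 1 2).toNat + (VL 1 2).toNat = 2 := by
  have h : (HL 2 2).toNat + (VL 1 3).toNat + (HL 1 2).toNat + (VL 1 2).toNat = 2 :=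
    G.deg 1 (by norm_num) 2 (by norm_num)
  omega
theorem c_0_2 : (HL 1 2).toNat + (VL 0 3).toNat + (HL 0 2).toNat + (VL 0 2).toNat = 2 := by
  have h : (HL 1 2).toNat + (VL 0 3).toNat + (HL 0 2).toNat + (VL 0 2).toNat = 2 :=
    G.deg 0 (by norm_num) 2 (by norm_num)
  omega
theorem k_0 : 1 ≤ (HL 0 2).toNat + (HL 2 2).toNat + (HL 2 3).toNat + (VL 0 2).toNat + (VL 0 4).toNat + (VL 1 2).toNat := by
  obtain ⟨q, hq, h⟩ := G.cut {(0, 2), (0, 3), (1, 2), (1, 3)} (by decide)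
    (by decide +kernel) (by decide)
  simp only [Finset.mem_insert, Finset.mem_singleton] at hq
  rcases hq with rfl | rfl | rfl | rfl
  · rcases h with ⟨h1, h2⟩ | ⟨h1, h2⟩ | ⟨h1, h2⟩ | ⟨h1, h2⟩
    · exact absurd h1 (by decide)
    · exact absurd h1 (by decide)
    · have h3 : (HL 0 2).toNat = 1 := tn1 h2
      omega
    · have h3 : (VL 0 2).toNat = 1 := tn1 h2
      omega
  · rcases h with ⟨h1, h2⟩ | ⟨h1, h2⟩ | ⟨h1, h2⟩ | ⟨h1, h2⟩
    · exact absurd h1 (by decide)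
    · have h3 : (VL 0 4).toNat = 1 := tn1 h2
      omega
    · exact tf h2 (zh03 G)
    · exact absurd h1 (by decide)
  · rcases h with ⟨h1, h2⟩ | ⟨h1, h2⟩ | ⟨h1, h2⟩ | ⟨h1, h2⟩
    · have h3 : (HL 2 2).toNat = 1 := tn1 h2
      omega
    · exact absurd h1 (by decide)
    · exact absurd h1 (by decide)
    · have h3 : (VL 1 2).toNat = 1 := tn1 h2
      omega
  · rcases h with ⟨h1, h2⟩ | ⟨h1, h2⟩ | ⟨h1, h2⟩ | ⟨h1, h2⟩
    · have h3 : (HL 2 3).toNat = 1 := tn1 h2
      omega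
    · exact tf h2 (zv14 G)
    · exact absurd h1 (by decide)
    · exact absurd h1 (by decide)
theorem k_1 : 1 ≤ (HL 0 2).toNat + (HL 3 2).toNat + (HL 3 3).toNat + (VL 0 2).toNat + (VL 0 4).toNat + (VL 1 2).toNat := by
  obtain ⟨q, hq, h⟩ := G.cut {(0, 2), (0, 3), (1, 2), (1, 3), (2, 2), (2, 3)} (by decide)
    (by decide +kernel) (by decide)
  simp only [Finset.mem_insert, Finset.mem_singleton] at hq
  rcases hq with rfl | rfl | rfl | rfl | rfl | rfl
  · rcases h with ⟨h1, h2⟩ | ⟨h1, h2⟩ | ⟨h1, h2⟩ | ⟨h1, h2⟩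
    · exact absurd h1 (by decide)
    · exact absurd h1 (by decide)
    · have h3 : (HL 0 2).toNat = 1 := tn1 h2
      omega
    · have h3 : (VL 0 2).toNat = 1 := tn1 h2
      omega
  · rcases h with ⟨h1, h2⟩ | ⟨h1, h2⟩ | ⟨h1, h2⟩ | ⟨h1, h2⟩
    · exact absurd h1 (by decide)
    · have h3 : (VL 0 4).toNat = 1 := tn1 h2
      omega
    · exact tf h2 (zh03 G)
    · exact absurd h1 (by decide)
  · rcases h with ⟨h1, h2⟩ | ⟨h1, h2⟩ | ⟨h1, h2⟩ | ⟨h1, h2⟩
    · exact absurd h1 (by decide)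
    · exact absurd h1 (by decide)
    · exact absurd h1 (by decide)
    · have h3 : (VL 1 2).toNat = 1 := tn1 h2
      omega
  · rcases h with ⟨h1, h2⟩ | ⟨h1, h2⟩ | ⟨h1, h2⟩ | ⟨h1, h2⟩
    · exact absurd h1 (by decide)
    · exact tf h2 (zv14 G)
    · exact absurd h1 (by decide)
    · exact absurd h1 (by decide)
  · rcases h with ⟨h1, h2⟩ | ⟨h1, h2⟩ | ⟨h1, h2⟩ | ⟨h1, h2⟩
    · have h3 : (HL 3 2).toNat = 1 := tn1 h2
      omega
    · exact absurd h1 (by decide)
    · exact absurd h1 (by decide)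
    · exact tf h2 (zv22 G)
  · rcases h with ⟨h1, h2⟩ | ⟨h1, h2⟩ | ⟨h1, h2⟩ | ⟨h1, h2⟩
    · have h3 : (HL 3 3).toNat = 1 := tn1 h2
      omega
    · exact tf h2 (zv24 G)
    · exact absurd h1 (by decide)
    · exact absurd h1 (by decide)
theorem c_0_1 : (HL 1 1).toNat + (VL 0 2).toNat + (HL 0 1).toNat = 1 := by
  have h : (HL 1 1).toNat + (VL 0 2).toNat + (HL 0 1).toNat + (VL 0 1).toNat = 2 :=
    G.deg 0 (by norm_num) 1 (by norm_num)
  have := zv01 G
  omega

end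

theorem ofLoc {HL VL : ℕ → ℕ → Bool} (G : Loc HL VL) (hL : HL 0 1 = !HL 0 2) (hB : VL 1 0 = !VL 2 0)
    (hR : HL 6 1 = !HL 6 2) (hT : VL 1 6 = !VL 2 6) :
    HL 6 2 = HL 0 2 ∧ VL 2 6 = VL 2 0 ∧ VL 0 2 = (VL 2 0 && HL 0 2) := by
  have H := core
  replace H := H (HL 6 1)
  replace H := H (HL 5 1)
  replace H := H (c_5_1 G)
  replace H := H (HL 6 2)
  replace H := H (pt hR)
  replace H := H (VL 2 6)
  replace H := H (HL 3 5)
  replace H := H (c_2_5 G)
  replace H := H (HL 4 5)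
  replace H := H (c_3_5 G)
  replace H := H (VL 4 5)
  replace H := H (c_4_5 G)
  replace H := H (VL 1 6)
  replace H := H (pt hT)
  replace H := H (VL 1 5)
  replace H := H (c_1_5 G)
  replace H := H (HL 1 4)
  replace H := H (c_1_4 G)
  replace H := H (VL 0 4)
  replace H := H (c_0_4 G)
  replace H := H (HL 4 1)
  replace H := H (VL 4 2)
  replace H := H (c_4_1 G)
  replace H := H (VL 4 3)
  replace H := H (HL 5 2)
  replace H := H (c_4_2 G)
  replace H := H (VL 5 3)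
  replace H := H (c_5_2 G)
  replace H := H (HL 5 3)
  replace H := H (c_5_3 G)
  replace H := H (HL 4 3)
  replace H := H (VL 4 4)
  replace H := H (c_4_3 G)
  replace H := H (HL 4 4)
  replace H := H (c_4_4 G)
  replace H := H (VL 3 4)
  replace H := H (c_3_4 G)
  replace H := H (k_4 G)
  replace H := H (VL 3 2)
  replace H := H (VL 3 1)
  replace H := H (c_3_1 G)
  replace H := H (HL 3 0)
  replace H := H (c_3_0 G)
  replace H := H (VL 2 0)
  replace H := H (c_2_0 G)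
  replace H := H (VL 1 0)
  replace H := H (pt hB)
  replace H := H (HL 3 3)
  replace H := H (VL 3 3)
  replace H := H (c_3_3 G)
  replace H := H (HL 3 2)
  replace H := H (c_3_2 G)
  replace H := H (k_3 G)
  replace H := H (HL 2 2)
  replace H := H (c_2_2 G)
  replace H := H (HL 2 3)
  replace H := H (c_2_3 G)
  replace H := H (k_2 G)
  replace H := H (VL 1 1)
  replace H := H (c_1_0 G)
  replace H := H (VL 0 3)
  replace H := H (HL 1 3)
  replace H := H (c_0_3 G)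
  replace H := H (VL 1 3)
  replace H := H (c_1_3 G)
  replace H := H (HL 1 1)
  replace H := H (VL 1 2)
  replace H := H (c_1_1 G)
  replace H := H (HL 1 2)
  replace H := H (c_1_2 G)
  replace H := H (VL 0 2)
  replace H := H (HL 0 2)
  replace H := H (c_0_2 G)
  replace H := H (k_0 G)
  replace H := H (k_1 G)
  replace H := H (HL 0 1)
  replace H := H (c_0_1 G)
  replace H := H (pt hL)
  exact H

theorem tyX {N I J : ℕ} (h1 : 1 ≤ I) (h2 : I < J) (h3 : J ≤ N) : ty N I J = .X := by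
  unfold ty
  rw [if_neg (by omega), if_neg (by omega), if_neg (by omega), if_neg (by omega), if_neg (by omega),
    if_pos h2]

theorem rdX {N I J : ℕ} (h1 : 1 ≤ I) (h2 : I < J) (h3 : J ≤ N) (m : Ty → ℕ) {a b : ℕ} (ha : a < 10)
    (hb : b < 10) : rd m N (10 * I + a) (10 * J + b) = (m .X).testBit (10 * b + a) := by
  unfold rd
  rw [show (10 * I + a) / 10 = I by omega, show (10 * J + b) / 10 = J by omega,
    show (10 * I + a) % 10 = a by omega, show (10 * J + b) % 10 = b by omega, tyX h1 h2 h3]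

theorem pH : ∀ t : Ty, ∀ b : Fin 6, (b : ℕ) ≠ 1 → (b : ℕ) ≠ 2 → (alH t).testBit (10 * b + 9) = false := by
  decide +kernel

theorem pV : ∀ t : Ty, ∀ a : Fin 6, (a : ℕ) ≠ 1 → (a : ℕ) ≠ 2 → (alV t).testBit (90 + a) = false := by
  decide +kernel

theorem pres00 : (presM .X).testBit 0 = true := by decide +kernel

theorem toLoc {N : ℕ} {uh uv : ℕ → ℕ → Bool} (G : Good N uh uv) {I J : ℕ} (h1 : 1 ≤ I) (h2 : I < J)
    (h3 : J ≤ N) : Loc (fun a b => uh (10 * I + a - 1) (10 * J + b)) (fun a b => uv (10 * I + a) (10 * J + b - 1)) := by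
  have hpm : ∀ a < 6, ∀ b < 6, (presM .X).testBit (10 * b + a) = true := by decide +kernel
  have hpr : ∀ a < 6, ∀ b < 6, pres N (10 * I + a) (10 * J + b) = true := by
    intro a ha b hb
    unfold pres
    rw [rdX h1 h2 h3 presM (by omega) (by omega)]
    exact hpm a ha b hb
  have hnot : ∀ {c : Bool}, (c = true → False) → c = false := by
    intro c hc; cases c
    · rfl
    · exact (hc rfl).elim
  refine ⟨?_, ?_, ?_, ?_, ?_, ?_, ?_, ?_⟩
  · intro a ha b hb
    have h := G.deg (10 * I + a) (10 * J + b) (hpr a ha b hb)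
    unfold degU at h
    rw [if_neg (by omega), if_neg (by omega)] at h
    exact h
  · intro a ha b hb h
    refine hnot fun hc => ?_
    have h' := G.alwH (10 * I + a) (10 * J + b) hc
    rw [rdX h1 h2 h3 alH (by omega) (by omega), h] at h'
    exact Bool.noConfusion h'
  · intro a ha b hb h
    refine hnot fun hc => ?_
    have h' := G.alwV (10 * I + a) (10 * J + b) hc
    rw [rdX h1 h2 h3 alV (by omega) (by omega), h] at h'
    exact Bool.noConfusion h'
  · intro a ha b hb h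
    exact G.frcH (10 * I + a) (10 * J + b) (by rw [rdX h1 h2 h3 foH (by omega) (by omega), h])
  · intro a ha b hb h
    exact G.frcV (10 * I + a) (10 * J + b) (by rw [rdX h1 h2 h3 foV (by omega) (by omega), h])
  · intro b hb hb1 hb2
    refine hnot fun hc => ?_
    have h' := G.alwH (10 * I - 1) (10 * J + b) hc
    unfold rd at h'
    rw [show (10 * J + b) % 10 = b by omega, show (10 * I - 1) % 10 = 9 by omega,
      pH _ ⟨b, hb⟩ hb1 hb2] at h'
    exact Bool.noConfusion h'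
  · intro a ha ha1 ha2
    refine hnot fun hc => ?_
    have h' := G.alwV (10 * I + a) (10 * J - 1) hc
    unfold rd at h'
    rw [show (10 * I + a) % 10 = a by omega, show (10 * J - 1) % 10 = 9 by omega,
      pV _ ⟨a, ha⟩ ha1 ha2] at h'
    exact Bool.noConfusion h'
  · intro L hne hL h0
    have hinj : Function.Injective (fun q : ℕ × ℕ => (10 * I + q.1, 10 * J + q.2)) := by
      rintro ⟨a, b⟩ ⟨c, d⟩ h
      simp only [Prod.mk.injEq] at h ⊢
      omega
    obtain ⟨p, hp, q, hq, hpq⟩ := G.nocyc (L.image fun q => (10 * I + q.1, 10 * J + q.2)) (hne.image _) (by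
      rw [Finset.ssubset_iff_of_subset]
      · refine ⟨(10 * I, 10 * J), ?_, ?_⟩
        · unfold Vset
          rw [Finset.mem_filter, Finset.mem_product, Finset.mem_range, Finset.mem_range]
          refine ⟨⟨?_, ?_⟩, ?_⟩
          · show 10 * I < _
            omega
          · show 10 * J < _
            omega
          · exact hpr 0 (by omega) 0 (by omega)
        · intro hc
          rw [Finset.mem_image] at hc
          obtain ⟨⟨a, b⟩, hab, he⟩ := hc
          simp only [Prod.mk.injEq] at he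
          have ha : a = 0 := by omega
          have hb : b = 0 := by omega
          subst ha hb
          exact h0 hab
      · intro p hp
        rw [Finset.mem_image] at hp
        obtain ⟨⟨a, b⟩, hab, rfl⟩ := hp
        have := (hL _ hab).1
        dsimp only at this
        unfold Vset
        rw [Finset.mem_filter, Finset.mem_product, Finset.mem_range, Finset.mem_range]
        refine ⟨⟨?_, ?_⟩, ?_⟩
        · show 10 * I + a < _
          omega
        · show 10 * J + b < _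
          omega
        · exact hpr a this.1 b this.2)
    rw [Finset.mem_image] at hp
    obtain ⟨⟨a, b⟩, hab, rfl⟩ := hp
    refine ⟨(a, b), hab, ?_⟩
    have hmem : ∀ c d : ℕ, q = (10 * I + c, 10 * J + d) → (c, d) ∉ L := by
      intro c d hcd hc
      exact hq (by rw [Finset.mem_image]; exact ⟨(c, d), hc, hcd.symm⟩)
    unfold adjU at hpq
    dsimp only at hpq ⊢
    rcases hpq with ⟨h, hu⟩ | ⟨h, hu⟩ | ⟨h, hu⟩ | ⟨h, hu⟩
    · left
      exact ⟨hmem _ _ (by rw [h]; rfl), hu⟩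
    · right; right; left
      obtain ⟨q1, q2⟩ := q
      simp only [Prod.mk.injEq] at h
      have e1 : 10 * I + a - 1 = q1 := by omega
      have e2 : 10 * J + b = q2 := h.2
      refine ⟨?_, by rw [e1, e2]; exact hu⟩
      by_cases ha0 : a = 0
      · exact Or.inl ha0
      · right
        refine hmem _ _ ?_
        rw [Prod.mk.injEq]
        omega
    · right; left
      exact ⟨hmem _ _ (by rw [h]; rfl), hu⟩
    · right; right; right
      obtain ⟨q1, q2⟩ := q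
      simp only [Prod.mk.injEq] at h
      have e1 : 10 * J + b - 1 = q2 := by omega
      have e2 : 10 * I + a = q1 := h.1
      refine ⟨?_, by rw [e1, e2]; exact hu⟩
      by_cases hb0 : b = 0
      · exact Or.inl hb0
      · right
        refine hmem _ _ ?_
        rw [Prod.mk.injEq]
        omega

theorem d5 : specD5 := by
  intro N uh uv G I J h1 h2 h3 hL hB hR hT
  exact ofLoc (toLoc G h1 h2 h3) hL hB hR hT

end Pool.Agent.Helper58.ELP
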